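import Pool.Agent.Results.MP_c60ead_co.Threshold

/-!
Counting the `k`-transitive subsets of the symmetric group: the basic lemmas.
-/

set_option linter.unusedVariables false

namespace Pool.Agent.Y405.KT

open Equiv Finset
open Pool.Agent.Results.MP_c60ead_co.Threshold

/-- `y` increases on the set `s` of positions. -/
def IncOn {n : ℕ} (y : Perm (Fin n)) (s : Finset (Fin n)) : Prop :=
  ∀ i ∈ s, ∀ j ∈ s, i < j → y i < y j

/-- The permutations of `Fin n` without an increasing subsequence of length `l`. -/
noncomputable def avoid (n l : ℕ) : Finset (Perm (Fin n)) := by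
  classical
  exact Finset.univ.filter (fun y => ∀ s : Finset (Fin n), IncOn y s → s.card ≠ l)

lemma mem_avoid {n l : ℕ} (y : Perm (Fin n)) :
    y ∈ avoid n l ↔ ∀ s : Finset (Fin n), IncOn y s → s.card ≠ l := by
  classical
  simp [avoid]

lemma lex_lt {n : ℕ} (y z : Perm (Fin n)) (s : Finset (Fin n)) (hs : IncOn y s)
    (hz : ∀ x, x ∉ s → z x = y x) (hne : z ≠ y) :
    (toLex (fun i => y i) : Lex (Fin n → Fin n)) < toLex (fun i => z i) := by
  classical
  have hex : (Finset.univ.filter (fun x : Fin n => z x ≠ y x)).Nonempty := by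
    by_contra h
    rw [Finset.not_nonempty_iff_eq_empty, Finset.filter_eq_empty_iff] at h
    apply hne
    ext x
    have := h (Finset.mem_univ x)
    simp only [ne_eq, not_not] at this
    rw [this]
  obtain ⟨p, hp, hmin⟩ := Finset.exists_min_image _ (fun x : Fin n => x) hex
  rw [Finset.mem_filter] at hp
  have hlt : ∀ x, x < p → z x = y x := by
    intro x hx
    by_contra hc
    have := hmin x (by rw [Finset.mem_filter]; exact ⟨Finset.mem_univ _, hc⟩)
    exact absurd hx (not_lt.2 this)
  have hps : p ∈ s := by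
    by_contra hc
    exact hp.2 (hz p hc)
  obtain ⟨q, hq⟩ := y.surjective (z p)
  have hqp : q ≠ p := by
    intro h
    rw [h] at hq
    exact hp.2 hq.symm
  have hqs : q ∈ s := by
    by_contra hc
    have := hz q hc
    rw [hq] at this
    exact hqp (z.injective this)
  have hpq : p < q := by
    rcases lt_trichotomy q p with h | h | h
    · exfalso
      have := hlt q h
      rw [hq] at this
      exact hqp (z.injective this)
    · exact absurd h hqp
    · exact h
  have hy := hs p hps q hqs hpq
  rw [hq] at hy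
  exact ⟨p, fun j hj => (hlt j hj).symm, hy⟩

/-- A `k`-transitive set is determined by `r` and by its elements without an increasing
subsequence of length `n - k`. -/
lemma determined {n k l r : ℕ} (hkl : k + l = n) (Y Y' : Finset (Perm (Fin n)))
    (hY : ∀ a b : Fin k ↪ Fin n, (Y.filter (fun y => ∀ i, y (a i) = b i)).card = r)
    (hY' : ∀ a b : Fin k ↪ Fin n, (Y'.filter (fun y => ∀ i, y (a i) = b i)).card = r)
    (h : ∀ y ∈ avoid n l, (y ∈ Y ↔ y ∈ Y')) : Y = Y' := by
  classical
  by_contra hne
  have hex : (Finset.univ.filter (fun y : Perm (Fin n) => ¬ (y ∈ Y ↔ y ∈ Y'))).Nonempty := by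
    by_contra hc
    rw [Finset.not_nonempty_iff_eq_empty, Finset.filter_eq_empty_iff] at hc
    apply hne
    ext y
    have := hc (Finset.mem_univ y)
    simpa only [not_not] using this
  obtain ⟨y, hy, hmax⟩ := Finset.exists_max_image _
    (fun y : Perm (Fin n) => (toLex (fun i => y i) : Lex (Fin n → Fin n))) hex
  rw [Finset.mem_filter] at hy
  have hav : y ∉ avoid n l := fun hc => hy.2 (h y hc)
  rw [mem_avoid] at hav
  push Not at hav
  obtain ⟨s, hs, hsl⟩ := hav
  have hsc : (sᶜ : Finset (Fin n)).card = k := by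
    rw [Finset.card_compl, Fintype.card_fin]; omega
  obtain ⟨a, ha⟩ := exists_tuple _ hsc
  have key : ∀ z, (∀ i, z (a i) = (a.trans y.toEmbedding) i) → z ≠ y → (z ∈ Y ↔ z ∈ Y') := by
    intro z hz hzy
    by_contra hc
    have h1 := hmax z (by rw [Finset.mem_filter]; exact ⟨Finset.mem_univ _, hc⟩)
    have h2 := lex_lt y z s hs (fun x hx => by
      obtain ⟨i, hi⟩ := (ha x).1 (by simpa using hx)
      have := hz i
      rw [hi] at this
      rw [this, ← hi]; rfl) hzy
    exact absurd h2 (not_lt.2 h1)
  have main : ∀ Z Z' : Finset (Perm (Fin n)),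
      (∀ z, (∀ i, z (a i) = (a.trans y.toEmbedding) i) → z ≠ y → (z ∈ Z ↔ z ∈ Z')) →
      y ∈ Z → y ∉ Z' →
      (Z.filter (fun z => ∀ i, z (a i) = (a.trans y.toEmbedding) i)).card = r →
      (Z'.filter (fun z => ∀ i, z (a i) = (a.trans y.toEmbedding) i)).card = r → False := by
    intro Z Z' hk h1 h2 h3 h4
    have hss : Z'.filter (fun z => ∀ i, z (a i) = (a.trans y.toEmbedding) i) ⊂
        Z.filter (fun z => ∀ i, z (a i) = (a.trans y.toEmbedding) i) := by
      rw [Finset.ssubset_iff_of_subset]
      · refine ⟨y, ?_, ?_⟩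
        · rw [Finset.mem_filter]
          exact ⟨h1, fun i => rfl⟩
        · rw [Finset.mem_filter]
          exact fun hc => h2 hc.1
      · intro z hz
        rw [Finset.mem_filter] at hz ⊢
        have hzy : z ≠ y := by
          rintro rfl
          exact h2 hz.1
        exact ⟨(hk z hz.2 hzy).2 hz.1, hz.2⟩
    have := Finset.card_lt_card hss
    omega
  by_cases h1 : y ∈ Y
  · have h2 : y ∉ Y' := fun hc => hy.2 ⟨fun _ => hc, fun _ => h1⟩
    exact main Y Y' key h1 h2 (hY _ _) (hY' _ _)
  · have h2 : y ∈ Y' := by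
      by_contra hc
      exact hy.2 ⟨fun h => absurd h h1, fun h => absurd h hc⟩
    exact main Y' Y (fun z hz hzy => (key z hz hzy).symm) h2 h1 (hY' _ _) (hY _ _)

/-- The length of a longest increasing subsequence which ends at the position `x`. -/
noncomputable def len {n : ℕ} (y : Perm (Fin n)) (x : Fin n) : ℕ := by
  classical
  exact (Finset.univ.filter (fun s : Finset (Fin n) => IncOn y s ∧ x ∈ s ∧ ∀ z ∈ s, z ≤ x)).sup
    Finset.card

lemma le_len {n : ℕ} (y : Perm (Fin n)) (x : Fin n) (s : Finset (Fin n)) (h1 : IncOn y s)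
    (h2 : x ∈ s) (h3 : ∀ z ∈ s, z ≤ x) : s.card ≤ len y x := by
  classical
  unfold len
  have hmem : s ∈ Finset.univ.filter
      (fun s : Finset (Fin n) => IncOn y s ∧ x ∈ s ∧ ∀ z ∈ s, z ≤ x) := by
    simp only [Finset.mem_filter, Finset.mem_univ, true_and]
    exact ⟨h1, h2, h3⟩
  exact Finset.le_sup (f := Finset.card) hmem

lemma exists_len {n : ℕ} (y : Perm (Fin n)) (x : Fin n) :
    ∃ s : Finset (Fin n), IncOn y s ∧ x ∈ s ∧ (∀ z ∈ s, z ≤ x) ∧ s.card = len y x := by
  classical
  have hne : (Finset.univ.filter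
      (fun s : Finset (Fin n) => IncOn y s ∧ x ∈ s ∧ ∀ z ∈ s, z ≤ x)).Nonempty := by
    refine ⟨{x}, ?_⟩
    simp only [Finset.mem_filter, Finset.mem_univ, true_and, Finset.mem_singleton]
    refine ⟨?_, ?_⟩
    · intro i hi j hj hij
      rw [Finset.mem_singleton] at hi hj
      rw [hi, hj] at hij
      exact absurd hij (lt_irrefl _)
    · intro z hz
      exact hz.le
  obtain ⟨s, hs, hs'⟩ := Finset.exists_mem_eq_sup _ hne Finset.card
  simp only [Finset.mem_filter, Finset.mem_univ, true_and] at hs
  refine ⟨s, hs.1, hs.2.1, hs.2.2, ?_⟩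
  unfold len
  exact hs'.symm

lemma len_lt {n : ℕ} (y : Perm (Fin n)) (x x' : Fin n) (hxx : x < x') (hy : y x < y x') :
    len y x < len y x' := by
  classical
  obtain ⟨s, h1, h2, h3, h4⟩ := exists_len y x
  have hx' : x' ∉ s := fun hc => absurd (h3 x' hc) (not_le.2 hxx)
  have h5 : (insert x' s).card ≤ len y x' := by
    apply le_len
    · intro i hi j hj hij
      rw [Finset.mem_insert] at hi hj
      rcases hi with rfl | hi <;> rcases hj with rfl | hj
      · exact absurd hij (lt_irrefl _)
      · exact absurd (lt_of_lt_of_le hij (h3 j hj)) (not_lt.2 hxx.le)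
      · rcases eq_or_lt_of_le (h3 i hi) with h | h
        · rw [h]; exact hy
        · exact (h1 i hi x h2 h).trans hy
      · exact h1 i hi j hj hij
    · exact Finset.mem_insert_self _ _
    · intro z hz
      rw [Finset.mem_insert] at hz
      rcases hz with rfl | hz
      · exact le_rfl
      · exact (h3 z hz).trans hxx.le
  rw [Finset.card_insert_of_notMem hx'] at h5
  omega

lemma len_pos {n : ℕ} (y : Perm (Fin n)) (x : Fin n) : 0 < len y x := by
  obtain ⟨s, h1, h2, h3, h4⟩ := exists_len y x
  rw [← h4]
  exact Finset.card_pos.2 ⟨x, h2⟩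

lemma len_le {n m : ℕ} (y : Perm (Fin n)) (hy : y ∈ avoid n (m + 1)) (x : Fin n) :
    len y x ≤ m := by
  classical
  by_contra hc
  push Not at hc
  obtain ⟨s, h1, h2, h3, h4⟩ := exists_len y x
  obtain ⟨t, hts, htc⟩ := Finset.exists_subset_card_eq (s := s) (n := m + 1) (by omega)
  rw [mem_avoid] at hy
  exact hy t (fun i hi j hj hij => h1 i (hts hi) j (hts hj) hij) htc

/-- A permutation which preserves a colouring and increases on each colour class is the
identity. -/
lemma eq_one_of_class {n : ℕ} {γ : Type*} (c : Fin n → γ) (σ : Perm (Fin n))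
    (h1 : ∀ x, c (σ x) = c x) (h2 : ∀ x x', c x = c x' → x < x' → σ x < σ x') : σ = 1 := by
  classical
  by_contra hne
  have hex : (Finset.univ.filter (fun x : Fin n => σ x ≠ x)).Nonempty := by
    by_contra h
    rw [Finset.not_nonempty_iff_eq_empty, Finset.filter_eq_empty_iff] at h
    apply hne
    ext x
    have := h (Finset.mem_univ x)
    simp only [ne_eq, not_not] at this
    rw [this]; rfl
  obtain ⟨p, hp, hmin⟩ := Finset.exists_min_image _ (fun x : Fin n => x) hex
  rw [Finset.mem_filter] at hp
  have hlt : ∀ x, x < p → σ x = x := by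
    intro x hx
    by_contra hc
    have := hmin x (by rw [Finset.mem_filter]; exact ⟨Finset.mem_univ _, hc⟩)
    exact absurd hx (not_lt.2 this)
  have h3 : p < σ p := by
    rcases lt_trichotomy p (σ p) with h | h | h
    · exact h
    · exact absurd h.symm hp.2
    · exfalso
      have := hlt _ h
      exact hp.2 (σ.injective this)
  obtain ⟨v, hv⟩ := σ.surjective p
  have hvp : p < v := by
    rcases lt_trichotomy p v with h | h | h
    · exact h
    · exfalso
      rw [← h] at hv
      exact hp.2 hv
    · exfalso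
      have := hlt _ h
      rw [hv] at this
      rw [← this] at h
      exact lt_irrefl _ h
  have h4 : c p = c v := by rw [← h1 v, hv]
  have h5 := h2 p v h4 hvp
  rw [hv] at h5
  exact absurd h5 (not_lt.2 h3.le)

/-- There are at most `m ^ (2 n)` permutations without an increasing subsequence of length
`m + 1`. -/
lemma card_avoid_le (n m : ℕ) (hm : 1 ≤ m) : (avoid n (m + 1)).card ≤ m ^ (2 * n) := by
  classical
  let col : Perm (Fin n) → Fin n → Fin m := fun y x =>
    if h : len y x - 1 < m then ⟨len y x - 1, h⟩ else ⟨0, hm⟩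
  have hcol : ∀ y ∈ avoid n (m + 1), ∀ x x', col y x = col y x' → x < x' → y x' < y x := by
    intro y hy x x' hxx hlt
    by_contra hc
    have hne : y x ≠ y x' := fun h => absurd (y.injective h) hlt.ne
    have h1 : y x < y x' := lt_of_le_of_ne (not_lt.1 hc) hne
    have h2 := len_lt y x x' hlt h1
    have h3 := len_le y hy x
    have h4 := len_le y hy x'
    have h5 := len_pos y x
    have h6 := len_pos y x'
    have h7 : len y x - 1 < m := by omega
    have h8 : len y x' - 1 < m := by omega
    simp only [col, dif_pos h7, dif_pos h8, Fin.mk.injEq] at hxx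
    omega
  have hinj : Set.InjOn (fun y : Perm (Fin n) => (col y, (fun v => col y (y⁻¹ v) : Fin n → Fin m)))
      (avoid n (m + 1) : Set (Perm (Fin n))) := by
    intro y hy y' hy' h
    simp only [Prod.mk.injEq] at h
    obtain ⟨h1, h2⟩ := h
    have hinv : ∀ (w : Perm (Fin n)) (x : Fin n), w⁻¹ (w x) = x := fun w x => by
      change w.symm (w x) = x
      exact w.symm_apply_apply _
    have h2' : (fun v => col y (y⁻¹ v) : Fin n → Fin m) = (fun v => col y' (y'⁻¹ v)) := h2
    have hσ : y'⁻¹ * y = 1 := by
      apply eq_one_of_class (col y)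
      · intro x
        have h3 : col y (y⁻¹ (y x)) = col y' (y'⁻¹ (y x)) := congrFun h2' (y x)
        rw [hinv y x] at h3
        rw [h3, h1]; rfl
      · intro x x' hxx hlt
        have h3 := hcol y hy x x' hxx hlt
        by_contra hc
        have hne : (y'⁻¹ * y) x ≠ (y'⁻¹ * y) x' := fun h => absurd ((y'⁻¹ * y).injective h) hlt.ne
        have h4 : (y'⁻¹ * y) x' < (y'⁻¹ * y) x := lt_of_le_of_ne (not_lt.1 hc) hne.symm
        have h6 : ∀ x, col y' ((y'⁻¹ * y) x) = col y x := by
          intro x
          have h3 : col y (y⁻¹ (y x)) = col y' (y'⁻¹ (y x)) := congrFun h2' (y x)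
          rw [hinv y x] at h3
          rw [h3]; rfl
        have h7 := hcol y' hy' _ _ (by rw [h6, h6, hxx]) h4
        have h8 : ∀ x, y' ((y'⁻¹ * y) x) = y x := fun x => by
          change y' (y'.symm (y x)) = y x
          exact y'.apply_symm_apply _
        rw [h8, h8] at h7
        exact absurd h7 (not_lt.2 h3.le)
    have := congrArg (fun z => y' * z) hσ
    simpa using this
  have hcard := Finset.card_le_card_of_injOn
    (t := (Finset.univ : Finset ((Fin n → Fin m) × (Fin n → Fin m)))) _
    (fun y _ => Finset.mem_coe.2 (Finset.mem_univ _)) hinj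
  rw [Finset.card_univ, Fintype.card_prod, Fintype.card_fun, Fintype.card_fin,
    Fintype.card_fin] at hcard
  calc (avoid n (m + 1)).card ≤ m ^ n * m ^ n := hcard
    _ = m ^ (2 * n) := by rw [← pow_add]; congr 1; ring

end Pool.Agent.Y405.KT
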