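import Pool.Agent.Y405.KT.Base

/-!
Counting the `k`-transitive subsets of the symmetric group: lower bounds and upper bounds.
-/

set_option linter.unusedVariables false

namespace Pool.Agent.Y405.KT

open Equiv Finset
open Pool.Agent.Results.MP_c60ead_co.Threshold

/-- The colouring `c ∘ y⁻¹`. -/
def mv {n m : ℕ} (c : Fin n → Fin m) (y : Perm (Fin n)) : Fin n → Fin m := fun v => c (y.symm v)

/-- The permutations which are even exactly when they move the colouring `c` to an element of
`H`. -/
noncomputable def fam {n m : ℕ} (c : Fin n → Fin m) (H : Finset (Fin n → Fin m)) :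
    Finset (Perm (Fin n)) := by
  classical
  exact Finset.univ.filter (fun y => (Perm.sign y = 1 ↔ mv c y ∈ H))

lemma mem_fam {n m : ℕ} (c : Fin n → Fin m) (H : Finset (Fin n → Fin m)) (y : Perm (Fin n)) :
    y ∈ fam c H ↔ (Perm.sign y = 1 ↔ mv c y ∈ H) := by
  classical
  simp [fam]

lemma fam_half {n k m : ℕ} (c : Fin n → Fin m) (H : Finset (Fin n → Fin m))
    (hk : k + m + 1 ≤ n) (a b : Fin k ↪ Fin n) :
    2 * ((fam c H).filter (fun y => ∀ i, y (a i) = b i)).card = (carry a b).card := by
  classical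
  -- two points outside of the tuple of the same colour
  have hcard : (Finset.univ : Finset (Fin m)).card <
      (Finset.univ \ (Finset.univ.map a) : Finset (Fin n)).card := by
    have h2 := Finset.card_sdiff_add_card_eq_card
      (Finset.subset_univ (Finset.univ.map a : Finset (Fin n)))
    rw [Finset.card_map, Finset.card_univ, Finset.card_univ, Fintype.card_fin,
      Fintype.card_fin] at h2
    rw [Finset.card_univ, Fintype.card_fin]
    omega
  obtain ⟨x, hx, x', hx', hxx, hcc⟩ :=
    Finset.exists_ne_map_eq_of_card_lt_of_maps_to hcard (f := c) (fun _ _ => Finset.mem_univ _)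
  simp only [Finset.mem_sdiff, Finset.mem_univ, Finset.mem_map, true_and,
    not_exists] at hx hx'
  set τ : Perm (Fin n) := Equiv.swap x x' with hτ
  have hsign : ∀ y : Perm (Fin n), Perm.sign (y * τ) = - Perm.sign y := by
    intro y
    rw [Perm.sign_mul, hτ, Perm.sign_swap hxx]; simp
  have hcol : ∀ v, c (τ v) = c v := by
    intro v
    rw [hτ]
    by_cases h1 : v = x
    · rw [h1, Equiv.swap_apply_left, hcc]
    · by_cases h2 : v = x'
      · rw [h2, Equiv.swap_apply_right, hcc]
      · rw [Equiv.swap_apply_of_ne_of_ne h1 h2]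
  have hmv : ∀ y : Perm (Fin n), mv c (y * τ) = mv c y := by
    intro y
    funext v
    have h1 : (y * τ).symm v = τ (y.symm v) := by
      rw [Equiv.symm_apply_eq]
      rw [Perm.mul_apply, hτ, Equiv.swap_apply_self, Equiv.apply_symm_apply]
    change c ((y * τ).symm v) = c (y.symm v)
    rw [h1, hcol]
  have ha : ∀ i, τ (a i) = a i := by
    intro i
    rw [hτ]
    exact Equiv.swap_apply_of_ne_of_ne (hx i) (hx' i)
  have hmem : ∀ y : Perm (Fin n), (y * τ ∈ fam c H ↔ ¬ (y ∈ fam c H)) := by
    intro y
    rw [mem_fam, mem_fam, hmv, hsign]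
    rcases Int.units_eq_one_or (Perm.sign y) with h | h
    · rw [h]; by_cases h1 : mv c y ∈ H <;> simp [h1]
    · rw [h]; by_cases h1 : mv c y ∈ H <;> simp [h1]
  have hττ : τ * τ = 1 := by rw [hτ, Equiv.swap_mul_self]
  -- the map `y ↦ y τ` exchanges the two halves
  have hsplit : (carry a b).card =
      ((carry a b).filter (fun y => y ∈ fam c H)).card +
      ((carry a b).filter (fun y => ¬ (y ∈ fam c H))).card := by
    rw [Finset.card_filter_add_card_filter_not]
  have hone : ((carry a b).filter (fun y => ¬ (y ∈ fam c H))).card =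
      ((carry a b).filter (fun y => y ∈ fam c H)).card := by
    refine Finset.card_bij (fun y _ => y * τ) ?_ ?_ ?_
    · intro y hy
      rw [Finset.mem_filter, mem_carry] at hy
      rw [Finset.mem_filter, mem_carry]
      exact ⟨fun i => by rw [Perm.mul_apply, ha i, hy.1 i], (hmem y).2 hy.2⟩
    · intro y _ z _ hyz
      simpa using hyz
    · intro z hz
      refine ⟨z * τ, ?_, ?_⟩
      · rw [Finset.mem_filter, mem_carry] at hz
        rw [Finset.mem_filter, mem_carry]
        refine ⟨fun i => by rw [Perm.mul_apply, ha i, hz.1 i], fun hc => ?_⟩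
        exact (hmem z).1 hc hz.2
      · rw [mul_assoc, hττ, mul_one]
  have hsame : ((fam c H).filter (fun y => ∀ i, y (a i) = b i)) =
      ((carry a b).filter (fun y => y ∈ fam c H)) := by
    ext y
    rw [Finset.mem_filter, Finset.mem_filter, mem_carry]
    exact and_comm
  rw [hsame, hsplit, hone]
  ring

/-- `S_n` is the coset of the identity. -/
lemma card_carry_eq {n k : ℕ} (hkn : k ≤ n) (a b : Fin k ↪ Fin n) :
    (carry a b).card = (n - k).factorial := by
  classical
  rw [card_carry a b (Fin.castLEEmb hkn) (Fin.castLEEmb hkn)]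
  have h1 : Fintype.card {f : Perm (Fin n) // ∀ x : Fin n, ¬ (k ≤ x.val) → f x = x} =
      (n - k).factorial := by
    rw [Fintype.card_congr (Equiv.Perm.subtypeEquivSubtypePerm (fun x : Fin n => k ≤ x.val)).symm,
      Fintype.card_perm]
    congr 1
    have h2 : Fintype.card {x : Fin n // ¬ (k ≤ x.val)} = k := by
      rw [Fintype.card_congr (β := Fin k)]
      · exact Fintype.card_fin k
      · exact {
          toFun := fun x => ⟨x.1.val, by have := x.2; omega⟩
          invFun := fun i => ⟨⟨i.val, by have := i.2; omega⟩, by have := i.2; simp⟩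
          left_inv := fun x => rfl
          right_inv := fun i => rfl }
    have h3 := Fintype.card_subtype_compl (fun x : Fin n => k ≤ x.val)
    rw [h2, Fintype.card_fin] at h3
    have h4 := Fintype.card_subtype_le (fun x : Fin n => k ≤ x.val)
    rw [Fintype.card_fin] at h4
    omega
  rw [← h1, Fintype.card_subtype]
  congr 1
  ext y
  rw [mem_carry, Finset.mem_filter]
  constructor
  · intro h
    refine ⟨Finset.mem_univ _, fun x hx => ?_⟩
    have := h ⟨x.val, by omega⟩
    have hc : (Fin.castLEEmb hkn) ⟨x.val, by omega⟩ = x := by ext; simp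
    rwa [hc] at this
  · intro h i
    exact h.2 _ (by simp)

lemma univ_trans {n k : ℕ} (hk1 : 1 ≤ k) (hkn : k ≤ n) : IsKTransitive n k Finset.univ :=
  ⟨hk1, hkn, (n - k).factorial, Nat.factorial_pos _, fun a b => card_carry_eq hkn a b⟩

lemma fam_trans {n k m : ℕ} (c : Fin n → Fin m) (H : Finset (Fin n → Fin m)) (hk1 : 1 ≤ k)
    (hk : k + m + 1 ≤ n) : IsKTransitive n k (fam c H) := by
  have hkn : k ≤ n := by omega
  let a₀ : Fin k ↪ Fin n := Fin.castLEEmb hkn
  refine ⟨hk1, hkn, ((fam c H).filter (fun y => ∀ i, y (a₀ i) = a₀ i)).card, ?_, ?_⟩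
  · have h := fam_half c H hk a₀ a₀
    rw [card_carry_eq hkn] at h
    have := Nat.factorial_pos (n - k)
    omega
  · intro a b
    have h := fam_half c H hk a₀ a₀
    have h' := fam_half c H hk a b
    rw [card_carry_eq hkn] at h h'
    omega

lemma fam_card {n m : ℕ} (c : Fin n → Fin m) (H : Finset (Fin n → Fin m)) (hk : m + 1 ≤ n) :
    2 * (fam c H).card = n.factorial := by
  classical
  have h := fam_half (k := 0) c H (by omega) Function.Embedding.ofIsEmpty
    Function.Embedding.ofIsEmpty
  rw [card_carry_eq (Nat.zero_le _)] at h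
  rw [Nat.sub_zero] at h
  rw [← h]
  congr 2
  ext y
  rw [Finset.mem_filter]
  exact ⟨fun hy => ⟨hy, fun i => i.elim0⟩, fun hy => hy.1⟩

/-- The colourings `c ∘ y⁻¹`. -/
noncomputable def orb {n m : ℕ} (c : Fin n → Fin m) : Finset (Fin n → Fin m) := by
  classical
  exact Finset.univ.image (mv c)

lemma fam_inj {n m : ℕ} (c : Fin n → Fin m) (H H' : Finset (Fin n → Fin m)) (hH : H ⊆ orb c)
    (hH' : H' ⊆ orb c) (h : fam c H = fam c H') : H = H' := by
  classical
  have key : ∀ K K' : Finset (Fin n → Fin m), K ⊆ orb c → fam c K = fam c K' → K ⊆ K' := by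
    intro K K' hK he d hd
    have := hK hd
    unfold orb at this
    rw [Finset.mem_image] at this
    obtain ⟨y, -, hy⟩ := this
    have h1 : (y ∈ fam c K) ↔ (y ∈ fam c K') := by rw [he]
    rw [mem_fam, mem_fam, hy] at h1
    by_contra hc
    by_cases hs : Perm.sign y = 1
    · simp only [hs, true_iff, hd, hc] at h1
    · simp only [hs, hd, hc, iff_true] at h1
  exact Finset.Subset.antisymm (key H H' hH h) (key H' H hH' h.symm)

lemma card_orb {n m : ℕ} (c : Fin n → Fin m) :
    (∏ i, (Fintype.card {x // c x = i}).factorial) * (orb c).card = n.factorial := by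
  classical
  have h1 : (Finset.univ : Finset (Perm (Fin n))).card =
      ∑ d ∈ orb c, ((Finset.univ : Finset (Perm (Fin n))).filter (fun y => mv c y = d)).card := by
    apply Finset.card_eq_sum_card_fiberwise
    intro y _
    unfold orb
    rw [Finset.coe_image]
    exact ⟨y, by simp, rfl⟩
  have h2 : ∀ d ∈ orb c,
      ((Finset.univ : Finset (Perm (Fin n))).filter (fun y => mv c y = d)).card =
        ∏ i, (Fintype.card {x // c x = i}).factorial := by
    intro d hd
    unfold orb at hd
    rw [Finset.mem_image] at hd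
    obtain ⟨z, -, hz⟩ := hd
    rw [← DomMulAct.stabilizer_card c, Fintype.card_subtype]
    symm
    refine Finset.card_bij (fun g _ => z * g) ?_ ?_ ?_
    · intro g hg
      rw [Finset.mem_filter] at hg ⊢
      refine ⟨Finset.mem_univ _, ?_⟩
      rw [← hz]
      funext v
      have h3 := congrFun hg.2 ((z * g).symm v)
      change c ((z * g).symm v) = c (z.symm v)
      rw [← h3]
      change c (g ((z * g).symm v)) = c (z.symm v)
      congr 1
      rw [Equiv.eq_symm_apply]
      have h4 : z (g ((z * g).symm v)) = (z * g) ((z * g).symm v) := rfl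
      rw [h4, Equiv.apply_symm_apply]
    · intro g _ g' _ h
      exact mul_left_cancel h
    · intro y hy
      rw [Finset.mem_filter] at hy
      refine ⟨z⁻¹ * y, ?_, by rw [mul_inv_cancel_left]⟩
      rw [Finset.mem_filter]
      refine ⟨Finset.mem_univ _, ?_⟩
      funext v
      have h3 := congrFun (hy.2.trans hz.symm) (y v)
      change c (y.symm (y v)) = c (z.symm (y v)) at h3
      rw [Equiv.symm_apply_apply] at h3
      rw [h3]
      rfl
  rw [Finset.card_univ, Fintype.card_perm, Fintype.card_fin, Finset.sum_congr rfl h2,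
    Finset.sum_const, smul_eq_mul] at h1
  rw [h1, mul_comm]

/-- A colouring with prescribed class sizes. -/
lemma exists_col {n m : ℕ} (s : Fin m → ℕ) (hs : ∑ i, s i = n) :
    ∃ c : Fin n → Fin m, ∀ i, Fintype.card {x // c x = i} = s i := by
  classical
  subst hs
  refine ⟨fun x => (finSigmaFinEquiv.symm x).1, fun i => ?_⟩
  have e : {x : Fin (∑ i, s i) // (finSigmaFinEquiv.symm x).1 = i} ≃
      {p : (i : Fin m) × Fin (s i) // p.1 = i} :=
    Equiv.subtypeEquiv finSigmaFinEquiv.symm (fun x => Iff.rfl)
  rw [Fintype.card_congr e, Fintype.card_congr (Equiv.sigmaSubtype i), Fintype.card_fin]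

/-- The number of `k`-transitive subsets of `S_n`. -/
noncomputable def count (n k : ℕ) : ℕ := Nat.card {Y : Finset (Perm (Fin n)) // IsKTransitive n k Y}

/-- The number of `k`-transitive subsets of `S_n` which have exactly `n! / 2` elements. -/
noncomputable def countHalf (n k : ℕ) : ℕ :=
  Nat.card {Y : Finset (Perm (Fin n)) // IsKTransitive n k Y ∧ 2 * Y.card = n.factorial}

lemma countHalf_le {n k : ℕ} : countHalf n k ≤ count n k := by
  unfold countHalf count
  exact Nat.card_le_card_of_injective
    (fun Y => (⟨Y.1, Y.2.1⟩ : {Y : Finset (Perm (Fin n)) // IsKTransitive n k Y}))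
    (fun Y Y' h => Subtype.ext (congrArg (fun Z => Z.1) h))

lemma le_countHalf {n k m : ℕ} (hk1 : 1 ≤ k) (hn : n = k + m + 1) (s : Fin m → ℕ)
    (hs : ∑ i, s i = n) : 2 ^ (Nat.multinomial Finset.univ s) ≤ countHalf n k := by
  classical
  obtain ⟨c, hc⟩ := exists_col s hs
  have h1 : (orb c).card = Nat.multinomial Finset.univ s := by
    have h2 := card_orb c
    have h3 := Nat.multinomial_spec (Finset.univ : Finset (Fin m)) s
    rw [hs] at h3
    simp only [hc] at h2
    exact Nat.eq_of_mul_eq_mul_left (Finset.prod_pos (fun i _ => Nat.factorial_pos _))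
      (h2.trans h3.symm)
  rw [← h1, ← Finset.card_powerset]
  have h4 : Nat.card {H : Finset (Fin n → Fin m) // H ∈ (orb c).powerset} ≤
      Nat.card {Y : Finset (Perm (Fin n)) // IsKTransitive n k Y ∧ 2 * Y.card = n.factorial} := by
    refine Nat.card_le_card_of_injective
      (fun H => ⟨fam c H.1, fam_trans c H.1 hk1 (by omega), fam_card c H.1 (by omega)⟩) ?_
    intro H H' h
    have h5 : fam c H.1 = fam c H'.1 := congrArg (fun Z => Z.1) h
    exact Subtype.ext (fam_inj c H.1 H'.1 (Finset.mem_powerset.1 H.2)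
      (Finset.mem_powerset.1 H'.2) h5)
  rw [Nat.card_eq_fintype_card, Fintype.card_coe] at h4
  exact h4

/-- The upper bound for the number of `k`-transitive sets. -/
lemma count_le {n k : ℕ} (hk1 : 1 ≤ k) (hkn : k ≤ n) :
    count n k ≤ (n - k).factorial * 2 ^ (avoid n (n - k)).card := by
  classical
  let a₀ : Fin k ↪ Fin n := Fin.castLEEmb hkn
  have hr : ∀ Y : {Y : Finset (Perm (Fin n)) // IsKTransitive n k Y},
      (Y.1.filter (fun y => ∀ i, y (a₀ i) = a₀ i)).card ∈ Finset.Icc 1 (n - k).factorial := by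
    rintro ⟨Y, h1, h2, r, hr, hc⟩
    rw [Finset.mem_Icc]
    refine ⟨by rw [hc a₀ a₀]; exact hr, ?_⟩
    rw [← card_carry_eq hkn a₀ a₀]
    apply Finset.card_le_card
    intro y hy
    rw [Finset.mem_filter] at hy
    rw [mem_carry]
    exact hy.2
  have h4 : Nat.card {Y : Finset (Perm (Fin n)) // IsKTransitive n k Y} ≤
      Nat.card ({r : ℕ // r ∈ Finset.Icc 1 (n - k).factorial} ×
        {H : Finset (Perm (Fin n)) // H ∈ (avoid n (n - k)).powerset}) := by
    refine Nat.card_le_card_of_injective (fun Y => (⟨_, hr Y⟩, ⟨avoid n (n - k) ∩ Y.1, by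
      rw [Finset.mem_powerset]; exact Finset.inter_subset_left⟩)) ?_
    rintro ⟨Y, h1, h2, r, hr, hc⟩ ⟨Y', h1', h2', r', hr', hc'⟩ h
    simp only [Prod.mk.injEq, Subtype.mk.injEq] at h
    rw [hc, hc'] at h
    obtain ⟨h5, h6⟩ := h
    subst h5
    apply Subtype.ext
    refine determined (l := n - k) (by omega) Y Y' hc hc' (fun y hy => ?_)
    constructor
    · intro hyY
      have : y ∈ avoid n (n - k) ∩ Y := Finset.mem_inter.2 ⟨hy, hyY⟩
      rw [h6] at this
      exact (Finset.mem_inter.1 this).2
    · intro hyY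
      have : y ∈ avoid n (n - k) ∩ Y' := Finset.mem_inter.2 ⟨hy, hyY⟩
      rw [← h6] at this
      exact (Finset.mem_inter.1 this).2
  have e1 : Nat.card {r : ℕ // r ∈ Finset.Icc 1 (n - k).factorial} = (n - k).factorial := by
    rw [Nat.card_eq_fintype_card, Fintype.card_coe, Nat.card_Icc, Nat.add_sub_cancel]
  have e2 : Nat.card {H : Finset (Perm (Fin n)) // H ∈ (avoid n (n - k)).powerset} =
      2 ^ (avoid n (n - k)).card := by
    rw [Nat.card_eq_fintype_card, Fintype.card_coe, Finset.card_powerset]
  rw [Nat.card_prod, e1, e2] at h4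
  exact h4

lemma count_pos {n k : ℕ} (hk1 : 1 ≤ k) (hkn : k ≤ n) : 0 < count n k := by
  unfold count
  have : Nonempty {Y : Finset (Perm (Fin n)) // IsKTransitive n k Y} :=
    ⟨⟨Finset.univ, univ_trans hk1 hkn⟩⟩
  exact Nat.card_pos

/-- For `k ≥ n - 1` the whole group is the only `k`-transitive subset. -/
lemma count_one {n k : ℕ} (hk1 : 1 ≤ k) (hkn : k ≤ n) (h : n ≤ k + 1) : count n k = 1 := by
  have h1 := count_le hk1 hkn
  have h2 : (avoid n (n - k)).card = 0 := by
    rw [Finset.card_eq_zero, Finset.eq_empty_iff_forall_notMem]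
    intro y hy
    rw [mem_avoid] at hy
    have h3 : n - k = 0 ∨ n - k = 1 := by omega
    rcases h3 with h3 | h3
    · exact hy ∅ (fun i hi => absurd hi (Finset.notMem_empty i)) (by rw [h3]; rfl)
    · refine hy {⟨0, by omega⟩} (fun i hi j hj hij => ?_) (by rw [h3]; rfl)
      rw [Finset.mem_singleton] at hi hj
      rw [hi, hj] at hij
      exact absurd hij (lt_irrefl _)
  have h4 : (n - k).factorial = 1 := by
    have h3 : n - k = 0 ∨ n - k = 1 := by omega
    rcases h3 with h3 | h3 <;> rw [h3] <;> rfl
  rw [h2, h4] at h1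
  have h5 := count_pos hk1 hkn
  omega

lemma even_trans {n k : ℕ} (hk1 : 1 ≤ k) (hkn : k + 2 ≤ n) : IsKTransitive n k (evenPerms n) ∧
    IsKTransitive n k (evenPerms n)ᶜ := by
  classical
  let c : Fin n → Fin 1 := fun _ => 0
  have h1 : fam c Finset.univ = evenPerms n := by
    ext y
    rw [mem_fam]
    simp only [Finset.mem_univ, iff_true, evenPerms, Finset.mem_filter, true_and]
  have h2 : fam c ∅ = (evenPerms n)ᶜ := by
    ext y
    rw [mem_fam]
    simp [evenPerms]
  constructor
  · rw [← h1]; exact fam_trans c _ hk1 (by omega)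
  · rw [← h2]; exact fam_trans c _ hk1 (by omega)

/-- The `n - 2`-transitive sets. -/
lemma iff_two {n : ℕ} (hn : 4 ≤ n) (Y : Finset (Perm (Fin n))) :
    IsKTransitive n (n - 2) Y ↔ (Y = Finset.univ ∨ Y = evenPerms n ∨ Y = (evenPerms n)ᶜ) := by
  constructor
  · exact fun h => trivial_of_ge hn (by omega) Y h
  · rintro (rfl | rfl | rfl)
    · exact univ_trans (by omega) (by omega)
    · exact (even_trans (by omega) (by omega)).1
    · exact (even_trans (by omega) (by omega)).2

lemma count_two {n : ℕ} (hn : 4 ≤ n) : count n (n - 2) = 3 := by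
  classical
  have h1 : (1 : Perm (Fin n)) ∈ evenPerms n := by simp [evenPerms]
  have h2 : Equiv.swap (⟨0, by omega⟩ : Fin n) ⟨1, by omega⟩ ∉ evenPerms n := by
    have : (⟨0, by omega⟩ : Fin n) ≠ ⟨1, by omega⟩ := by simp
    simp [evenPerms, Perm.sign_swap this]
  have h3 : (Finset.univ : Finset (Perm (Fin n))) ≠ evenPerms n := fun h => h2 (h ▸ Finset.mem_univ _)
  have h4 : (Finset.univ : Finset (Perm (Fin n))) ≠ (evenPerms n)ᶜ := fun h => by
    have : (1 : Perm (Fin n)) ∈ (evenPerms n)ᶜ := h ▸ Finset.mem_univ _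
    exact (Finset.mem_compl.1 this) h1
  have h5 : evenPerms n ≠ (evenPerms n)ᶜ := fun h => by
    have : (1 : Perm (Fin n)) ∈ (evenPerms n)ᶜ := h ▸ h1
    exact (Finset.mem_compl.1 this) h1
  unfold count
  rw [Nat.card_congr (Equiv.subtypeEquivRight (q := fun Y => Y ∈
    ({Finset.univ, evenPerms n, (evenPerms n)ᶜ} : Finset (Finset (Perm (Fin n)))))
    (fun Y => by rw [iff_two hn]; simp)), Nat.card_eq_fintype_card, Fintype.card_coe,
    Finset.card_insert_of_notMem, Finset.card_insert_of_notMem, Finset.card_singleton]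
  · rw [Finset.mem_singleton]; exact h5
  · rw [Finset.mem_insert, Finset.mem_singleton, not_or]; exact ⟨h3, h4⟩

/-- The lower bound which uses all colourings. -/
lemma pow_le {n k m : ℕ} (hk1 : 1 ≤ k) (hn : n = k + m + 1) :
    m ^ n ≤ (n + 1) ^ m * Nat.log 2 (countHalf n k) := by
  classical
  have h1 := Finset.sum_pow_eq_sum_piAntidiag (R := ℕ) (Finset.univ : Finset (Fin m))
    (fun _ => 1) n
  simp only [Finset.sum_const, Finset.card_univ, Fintype.card_fin, smul_eq_mul, mul_one,
    one_pow, Finset.prod_const_one, Nat.cast_id] at h1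
  rw [h1]
  have h2 : ∀ s ∈ Finset.piAntidiag (Finset.univ : Finset (Fin m)) n,
      Nat.multinomial Finset.univ s ≤ Nat.log 2 (countHalf n k) := by
    intro s hs
    rw [Finset.mem_piAntidiag] at hs
    have h3 := le_countHalf hk1 hn s hs.1
    exact Nat.le_log_of_pow_le (by norm_num) h3
  refine (Finset.sum_le_card_nsmul _ _ _ h2).trans ?_
  rw [smul_eq_mul]
  apply Nat.mul_le_mul_right
  have h4 : Finset.piAntidiag (Finset.univ : Finset (Fin m)) n ⊆
      Fintype.piFinset (fun _ => Finset.range (n + 1)) := by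
    intro s hs
    rw [Finset.mem_piAntidiag] at hs
    rw [Fintype.mem_piFinset]
    intro i
    rw [Finset.mem_range]
    have h5 : ∑ x, s x = n := hs.1
    have := Finset.single_le_sum (f := s) (fun i _ => Nat.zero_le _) (Finset.mem_univ i)
    omega
  refine (Finset.card_le_card h4).trans ?_
  rw [Fintype.card_piFinset]
  simp

/-- The class sizes `2, …, 2` or `2, …, 2, 1`. -/
lemma sum_two (n : ℕ) : (∑ i : Fin ((n + 1) / 2), (if 2 * i.val + 1 < n then 2 else 1)) = n ∧
    (∏ i : Fin ((n + 1) / 2), (if 2 * i.val + 1 < n then 2 else 1).factorial) = 2 ^ (n / 2) := by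
  rw [Fin.sum_univ_eq_sum_range (fun i : ℕ => (if 2 * i + 1 < n then 2 else 1 : ℕ)),
    Fin.prod_univ_eq_prod_range (fun i : ℕ => ((if 2 * i + 1 < n then 2 else 1 : ℕ)).factorial)]
  rcases Nat.even_or_odd' n with ⟨t, rfl | rfl⟩
  · have h1 : (2 * t + 1) / 2 = t := by omega
    have h2 : (2 * t) / 2 = t := by omega
    rw [h1, h2]
    constructor
    · rw [Finset.sum_congr rfl (g := fun _ => 2)]
      · simp [mul_comm]
      · intro i hi
        rw [Finset.mem_range] at hi
        rw [if_pos (by omega)]
    · rw [Finset.prod_congr rfl (g := fun _ => 2)]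
      · simp
      · intro i hi
        rw [Finset.mem_range] at hi
        rw [if_pos (by omega)]; rfl
  · have h1 : (2 * t + 1 + 1) / 2 = t + 1 := by omega
    have h2 : (2 * t + 1) / 2 = t := by omega
    rw [h1, h2, Finset.sum_range_succ, Finset.prod_range_succ, if_neg (by omega)]
    constructor
    · rw [Finset.sum_congr rfl (g := fun _ => 2)]
      · simp [mul_comm]
      · intro i hi
        rw [Finset.mem_range] at hi
        rw [if_pos (by omega)]
    · rw [Finset.prod_congr rfl (g := fun _ => 2)]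
      · simp
      · intro i hi
        rw [Finset.mem_range] at hi
        rw [if_pos (by omega)]; rfl

/-- The lower bound for `k = ⌊(n - 2) / 2⌋`. -/
lemma posed {n : ℕ} (hn : 4 ≤ n) : 2 ^ (n.factorial / 2 ^ (n / 2)) ≤ countHalf n ((n - 2) / 2) := by
  have h1 := le_countHalf (n := n) (k := (n - 2) / 2) (m := (n + 1) / 2) (by omega) (by omega)
    (fun i => if 2 * i.val + 1 < n then 2 else 1) (sum_two n).1
  have h2 : Nat.multinomial Finset.univ
      (fun i : Fin ((n + 1) / 2) => if 2 * i.val + 1 < n then 2 else 1) =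
      n.factorial / 2 ^ (n / 2) := by
    unfold Nat.multinomial
    rw [(sum_two n).1, (sum_two n).2]
  rw [h2] at h1
  exact h1

end Pool.Agent.Y405.KT
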